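import Mathlib

/-!
Counterexample to the upper half of the noncommutative Maclaurin-type (Recht-Re) inequality:
for every `n ≥ 6` the inequality fails for `m = n`, already for `5 × 5` matrices.
-/

namespace Pool.Agent.Results.MP_6eb00f_an.UpperHalfFails

open Matrix

/-- `S m A` is the sum, over all `m`-tuples `(j 0, ..., j (m-1))` of pairwise distinct indices
(injective maps `j : Fin m → Fin n`), of the product `A (j 0) * A (j 1) * ... * A (j (m-1))`. -/
noncomputable def S {n d : ℕ} (m : ℕ) (A : Fin n → Matrix (Fin d) (Fin d) ℝ) :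
    Matrix (Fin d) (Fin d) ℝ :=
  ∑ j : Fin m ↪ Fin n, (List.ofFn fun k => A (j k)).prod

section general

variable {R : Type*} [Ring R]

/-- Sum over all orderings of the product. -/
def P (n : ℕ) (A : Fin n → R) : R :=
  ∑ σ : Equiv.Perm (Fin n), (List.ofFn fun k => A (σ k)).prod

theorem P_zero (A : Fin 0 → R) : P 0 A = 1 := by
  simp [P]

theorem P_succ (n : ℕ) (A : Fin (n + 1) → R) :
    P (n + 1) A = ∑ p : Fin (n + 1), A p * P n (fun i => A (Equiv.swap 0 p i.succ)) := by
  unfold P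
  rw [← Equiv.sum_comp (Equiv.Perm.decomposeFin (n := n)).symm, Fintype.sum_prod_type]
  refine Finset.sum_congr rfl fun p _ => ?_
  rw [Finset.mul_sum]
  refine Finset.sum_congr rfl fun e _ => ?_
  rw [List.ofFn_succ, List.prod_cons]
  simp

/-- `P` is invariant under permuting the arguments. -/
theorem P_perm (n : ℕ) (A : Fin n → R) (τ : Equiv.Perm (Fin n)) :
    P n (fun i => A (τ i)) = P n A := by
  unfold P
  exact Equiv.sum_comp (Equiv.mulLeft τ) (fun σ => (List.ofFn fun k => A (σ k)).prod)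

/-- Inserting an identity as the argument number `0` multiplies `P` by `n + 1`. -/
theorem P_cons_one (n : ℕ) (A : Fin n → R) :
    P (n + 1) (Fin.cons 1 A) = ((n + 1 : ℕ) : R) * P n A := by
  induction n with
  | zero => rw [P_succ]; simp [P_zero]
  | succ n ih =>
    rw [P_succ, Fin.sum_univ_succ]
    have h0 : P (n + 1) (fun i => (Fin.cons 1 A : Fin (n + 2) → R) (Equiv.swap 0 0 i.succ))
        = P (n + 1) A := by
      congr 1
    have hp : ∀ p : Fin (n + 1),
        P (n + 1) (fun i => (Fin.cons 1 A : Fin (n + 2) → R) (Equiv.swap 0 p.succ i.succ))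
          = ((n + 1 : ℕ) : R) * P n (fun i => A (Equiv.swap 0 p i.succ)) := by
      intro p
      have key : (fun i : Fin (n + 1) =>
          (Fin.cons 1 A : Fin (n + 2) → R) (Equiv.swap 0 p.succ i.succ))
          = fun i => (Fin.cons (1 : R) (fun i : Fin n => A (Equiv.swap 0 p i.succ)) :
              Fin (n + 1) → R) (Equiv.swap 0 p i) := by
        funext i
        by_cases hi : i = p
        · subst hi
          simp
        · have h1 : Equiv.swap 0 p.succ i.succ = i.succ := by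
            apply Equiv.swap_apply_of_ne_of_ne (Fin.succ_ne_zero i)
            simpa using hi
          rw [h1]
          by_cases hi0 : i = 0
          · subst hi0
            obtain ⟨q, rfl⟩ : ∃ q : Fin n, p = q.succ := by
              refine ⟨p.pred (fun h => hi h.symm), by simp⟩
            simp
          · obtain ⟨q, rfl⟩ : ∃ q : Fin n, i = q.succ := ⟨i.pred hi0, by simp⟩
            rw [Equiv.swap_apply_of_ne_of_ne hi0 hi]
            simp only [Fin.cons_succ]
            rw [Equiv.swap_apply_of_ne_of_ne hi0 hi]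
      rw [key, P_perm (n + 1) (Fin.cons (1 : R) (fun i : Fin n => A (Equiv.swap 0 p i.succ)))
        (Equiv.swap 0 p), ih]
    rw [h0]
    simp only [hp, Fin.cons_zero, Fin.cons_succ, one_mul]
    rw [P_succ n A]
    have hc : ∀ p : Fin (n + 1), A p * (((n + 1 : ℕ) : R) * P n fun i => A (Equiv.swap 0 p i.succ))
        = ((n + 1 : ℕ) : R) * (A p * P n fun i => A (Equiv.swap 0 p i.succ)) := by
      intro p
      rw [← mul_assoc, (Nat.cast_commute (n + 1) (A p)).symm.eq, mul_assoc]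
    simp only [hc]
    rw [← Finset.mul_sum]
    push_cast
    noncomm_ring

end general

theorem S_eq_P {n d : ℕ} (A : Fin n → Matrix (Fin d) (Fin d) ℝ) : S n A = P n A := by
  unfold S P
  let e : (Fin n ↪ Fin n) ≃ Equiv.Perm (Fin n) :=
    { toFun := fun f => f.equivOfFiniteSelfEmbedding
      invFun := fun σ => σ.toEmbedding
      left_inv := fun f => by simp
      right_inv := fun σ => Equiv.toEmbedding_injective
        (Function.Embedding.toEmbedding_equivOfFiniteSelfEmbedding σ.toEmbedding) }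
  rw [← Equiv.sum_comp e.symm]
  rfl

theorem reverse_ofFn' {α : Type*} {n : ℕ} (f : Fin n → α) :
    (List.ofFn f).reverse = List.ofFn (fun k => f (Fin.rev k)) := by
  apply List.ext_getElem
  · simp
  · intro i h1 h2
    simp only [List.getElem_reverse, List.getElem_ofFn, List.length_ofFn]
    congr 1
    ext
    simp [Fin.rev]
    omega

theorem P_transpose {n d : ℕ} (A : Fin n → Matrix (Fin d) (Fin d) ℝ) (hA : ∀ i, (A i)ᵀ = A i) :
    (P n A)ᵀ = P n A := by
  unfold P
  rw [Matrix.transpose_sum]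
  have h1 : ∀ σ : Equiv.Perm (Fin n), ((List.ofFn fun k => A (σ k)).prod)ᵀ
      = (List.ofFn fun k => A ((Equiv.mulRight (Fin.revPerm (n := n)) σ) k)).prod := by
    intro σ
    rw [Matrix.transpose_list_prod, List.map_ofFn, reverse_ofFn']
    congr 2
    funext k
    simp [hA, Fin.revPerm]
  simp only [h1]
  exact Equiv.sum_comp (Equiv.mulRight (Fin.revPerm (n := n)))
    (fun σ => (List.ofFn fun k => A (σ k)).prod)

/-! ### Exact integer evaluation for the six matrices -/

/-- integer 5-vectors -/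
structure V5 where
  a : ℤ
  b : ℤ
  c : ℤ
  d : ℤ
  e : ℤ
deriving DecidableEq

instance : Inhabited V5 := ⟨⟨0, 0, 0, 0, 0⟩⟩

/-- integer 5 x 5 matrices, by rows -/
structure M5 where
  r0 : V5
  r1 : V5
  r2 : V5
  r3 : V5
  r4 : V5
deriving DecidableEq

instance : Inhabited M5 := ⟨⟨default, default, default, default, default⟩⟩

def V5.dot (x y : V5) : ℤ := x.a * y.a + x.b * y.b + x.c * y.c + x.d * y.d + x.e * y.e

def V5.add (x y : V5) : V5 := ⟨x.a + y.a, x.b + y.b, x.c + y.c, x.d + y.d, x.e + y.e⟩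

def M5.mul (M : M5) (v : V5) : V5 := ⟨M.r0.dot v, M.r1.dot v, M.r2.dot v, M.r3.dot v, M.r4.dot v⟩

def sumV (l : List V5) : V5 := l.foldr V5.add ⟨0, 0, 0, 0, 0⟩

/-- `G k L v` is the sum over all orderings of the first `k` matrices of the list `L` of the
product applied to the vector `v`. -/
def G : ℕ → List M5 → V5 → V5
  | 0, _, v => v
  | k + 1, L, v => sumV ((List.range (k + 1)).map fun p =>
      (L.getD p default).mul (G k ((L.set p (L.getD 0 default)).tail) v))

def toV (v : V5) : Fin 5 → ℝ := ![(v.a : ℝ), v.b, v.c, v.d, v.e]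

def toM (M : M5) : Matrix (Fin 5) (Fin 5) ℝ := ![toV M.r0, toV M.r1, toV M.r2, toV M.r3, toV M.r4]

theorem toV_mul (M : M5) (v : V5) : toV (M.mul v) = toM M *ᵥ toV v := by
  funext i
  fin_cases i <;>
  simp [toV, toM, M5.mul, V5.dot, Matrix.mulVec, dotProduct, Fin.sum_univ_succ] <;> ring

theorem toV_add (x y : V5) : toV (x.add y) = toV x + toV y := by
  funext i
  fin_cases i <;> simp [toV, V5.add]

theorem toV_sumV (l : List V5) : toV (sumV l) = (l.map toV).sum := by
  induction l with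
  | nil => funext i; fin_cases i <;> simp [toV, sumV]
  | cons x l ih =>
    have : sumV (x :: l) = x.add (sumV l) := rfl
    rw [this, toV_add, ih]
    simp

theorem sum_map_range {M : Type*} [AddCommMonoid M] (n : ℕ) (g : ℕ → M) :
    ((List.range n).map g).sum = ∑ p : Fin n, g p := by
  induction n with
  | zero => simp
  | succ n ih => rw [List.range_succ, List.map_append, List.sum_append, ih, Fin.sum_univ_castSucc]; simp

theorem sum_mulVec' {m : ℕ} {ι : Type*} (s : Finset ι) (f : ι → Matrix (Fin m) (Fin m) ℝ)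
    (v : Fin m → ℝ) : (∑ i ∈ s, f i) *ᵥ v = ∑ i ∈ s, f i *ᵥ v := by
  classical
  induction s using Finset.induction_on with
  | empty => simp
  | insert a s ha ih => rw [Finset.sum_insert ha, Finset.sum_insert ha, Matrix.add_mulVec, ih]

theorem toV_G (k : ℕ) : ∀ (L : List M5) (v : V5), L.length = k →
    toV (G k L v) = P k (fun i : Fin k => toM (L.getD i default)) *ᵥ toV v := by
  induction k with
  | zero => intro L v _; simp [G, P_zero]
  | succ k ih =>
    intro L v hL
    have h1 : G (k + 1) L v = sumV ((List.range (k + 1)).map fun p =>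
      (L.getD p default).mul (G k ((L.set p (L.getD 0 default)).tail) v)) := rfl
    rw [h1, toV_sumV, P_succ, List.map_map, sum_map_range, sum_mulVec']
    refine Finset.sum_congr rfl fun p _ => ?_
    have hlen : ((L.set p (L.getD 0 default)).tail).length = k := by simp [hL]
    simp only [Function.comp]
    rw [toV_mul, ih _ v hlen, Matrix.mulVec_mulVec]
    congr 3
    funext i
    congr 1
    have hi : (i : ℕ) + 1 < L.length := by rw [hL]; omega
    have hi' : (i : ℕ) < k := i.2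
    rw [List.getD_eq_getElem _ _ (by rw [hlen]; exact hi')]
    rw [List.getElem_tail, List.getElem_set]
    by_cases hpi : (p : ℕ) = i + 1
    · have h2 : p = i.succ := by ext; simpa using hpi
      subst h2
      simp
    · rw [if_neg hpi]
      have h2 : i.succ ≠ p := by
        intro h; apply hpi; rw [← h]; simp
      rw [Equiv.swap_apply_of_ne_of_ne (Fin.succ_ne_zero i) h2]
      rw [Fin.val_succ, List.getD_eq_getElem _ _ hi]

/-- `gram x y` is the rank two matrix `x xᵀ + y yᵀ`. -/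
def gram (x y : V5) : M5 :=
  ⟨⟨x.a * x.a + y.a * y.a, x.a * x.b + y.a * y.b, x.a * x.c + y.a * y.c, x.a * x.d + y.a * y.d, x.a * x.e + y.a * y.e⟩,
   ⟨x.b * x.a + y.b * y.a, x.b * x.b + y.b * y.b, x.b * x.c + y.b * y.c, x.b * x.d + y.b * y.d, x.b * x.e + y.b * y.e⟩,
   ⟨x.c * x.a + y.c * y.a, x.c * x.b + y.c * y.b, x.c * x.c + y.c * y.c, x.c * x.d + y.c * y.d, x.c * x.e + y.c * y.e⟩,
   ⟨x.d * x.a + y.d * y.a, x.d * x.b + y.d * y.b, x.d * x.c + y.d * y.c, x.d * x.d + y.d * y.d, x.d * x.e + y.d * y.e⟩,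
   ⟨x.e * x.a + y.e * y.a, x.e * x.b + y.e * y.b, x.e * x.c + y.e * y.c, x.e * x.d + y.e * y.d, x.e * x.e + y.e * y.e⟩⟩

def B : Fin 6 → M5 := ![
  gram ⟨-10, 6, -15, 46, 23⟩ ⟨-5, -45, -3, 17, -22⟩,
  gram ⟨9, 17, -2, 44, -26⟩ ⟨7, -29, 43, 10, -8⟩,
  gram ⟨9, -15, -50, 13, 6⟩ ⟨7, 1, 3, -6, 53⟩,
  gram ⟨-26, -6, 7, 20, 27⟩ ⟨-36, 29, 21, 3, 4⟩,
  gram ⟨-21, -14, -12, -29, -5⟩ ⟨-39, -34, 8, 8, 9⟩,
  gram ⟨16, 11, 28, 16, -2⟩ ⟨41, -22, 13, 2, 27⟩]

def BL : List M5 := List.ofFn B

set_option maxRecDepth 100000 in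
theorem G_eval : (G 6 BL ⟨1, 0, 0, 0, 0⟩).a = 932886760322070796374 := by
  decide +kernel

theorem toM_gram (x y : V5) :
    toM (gram x y) = vecMulVec (toV x) (toV x) + vecMulVec (toV y) (toV y) := by
  ext i j
  fin_cases i <;> fin_cases j <;> simp [toM, toV, gram, vecMulVec]

theorem posSemidef_gram (x y : V5) : (toM (gram x y)).PosSemidef := by
  rw [toM_gram]
  have h := posSemidef_vecMulVec_self_star (toV x)
  have h' := posSemidef_vecMulVec_self_star (toV y)
  simp only [star_trivial] at h h'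
  exact h.add h'

theorem posSemidef_B (i : Fin 6) : (toM (B i)).PosSemidef := by
  fin_cases i <;> exact posSemidef_gram _ _

def M5.add (M N : M5) : M5 :=
  ⟨M.r0.add N.r0, M.r1.add N.r1, M.r2.add N.r2, M.r3.add N.r3, M.r4.add N.r4⟩

theorem toM_add (M N : M5) : toM (M.add N) = toM M + toM N := by
  ext i j
  fin_cases i <;> simp [toM, M5.add, toV_add] <;> rfl

theorem sum_B_int : (B 0).add ((B 1).add ((B 2).add ((B 3).add ((B 4).add (B 5))))) =
    ⟨⟨6256, -7, 2, 3, -2⟩, ⟨-7, 6251, 2, 1, -17⟩, ⟨2, 2, 6247, 22, -12⟩, ⟨3, 1, 22, 6220, 11⟩,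
      ⟨-2, -17, -12, 11, 6182⟩⟩ := by
  decide +kernel

theorem sum_B : ∑ i, toM (B i) = !![6256, -7, 2, 3, -2;
    -7, 6251, 2, 1, -17; 2, 2, 6247, 22, -12; 3, 1, 22, 6220, 11; -2, -17, -12, 11, 6182] := by
  have h : ∑ i, toM (B i) =
      toM ((B 0).add ((B 1).add ((B 2).add ((B 3).add ((B 4).add (B 5)))))) := by
    simp only [toM_add, Fin.sum_univ_six]
    abel
  rw [h, sum_B_int]
  ext i j
  fin_cases i <;> fin_cases j <;> simp [toM, toV]

theorem posSemidef_slack :
    ((6263 : ℝ) • (1 : Matrix (Fin 5) (Fin 5) ℝ) - ∑ i, toM (B i)).PosSemidef := by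
  rw [sum_B]
  refine PosSemidef.of_dotProduct_mulVec_nonneg ?_ ?_
  · ext i j
    fin_cases i <;> fin_cases j <;> simp
  · intro x
    have h : star x ⬝ᵥ ((6263 : ℝ) • (1 : Matrix (Fin 5) (Fin 5) ℝ) - !![6256, -7, 2, 3, -2;
        -7, 6251, 2, 1, -17; 2, 2, 6247, 22, -12; 3, 1, 22, 6220, 11;
        -2, -17, -12, 11, 6182]) *ᵥ x
        = 7 * (x 0 + x 1 - 2 / 7 * x 2 - 3 / 7 * x 3 + 2 / 7 * x 4) ^ 2
          + 5 * (x 1 + 2 / 5 * x 3 + 3 * x 4) ^ 2
          + 108 / 7 * (x 2 - 40 / 27 * x 3 + 22 / 27 * x 4) ^ 2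
          + 952 / 135 * (x 3 + 335 / 952 * x 4) ^ 2 + 23145 / 952 * x 4 ^ 2 := by
      simp [Matrix.mulVec, dotProduct, Fin.sum_univ_succ]
      ring
    rw [h]
    positivity

/-- The six rank two matrices, normalised. -/
noncomputable def A6 (i : Fin 6) : Matrix (Fin 5) (Fin 5) ℝ := (6 / 6263 : ℝ) • toM (B i)

theorem P_smul (c : ℝ) {d : ℕ} (n : ℕ) : ∀ A : Fin n → Matrix (Fin d) (Fin d) ℝ,
    P n (fun i => c • A i) = c ^ n • P n A := by
  induction n with
  | zero => intro A; simp [P_zero]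
  | succ n ih =>
    intro A
    rw [P_succ, P_succ, Finset.smul_sum]
    refine Finset.sum_congr rfl fun p _ => ?_
    rw [ih (fun i => A (Equiv.swap 0 p i.succ)), smul_mul_smul_comm, pow_succ']

theorem exists_family (n : ℕ) (hn : 6 ≤ n) : ∃ A : Fin n → Matrix (Fin 5) (Fin 5) ℝ,
    (∀ i, (A i).PosSemidef) ∧ ((n : ℝ) • (1 : Matrix (Fin 5) (Fin 5) ℝ) - ∑ i, A i).PosSemidef ∧
    P n A = ((n.factorial : ℝ) / 720) • P 6 A6 := by
  induction n, hn using Nat.le_induction with
  | base =>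
    refine ⟨A6, fun i => (posSemidef_B i).smul (by norm_num), ?_, ?_⟩
    · have h : (((6 : ℕ) : ℝ) • (1 : Matrix (Fin 5) (Fin 5) ℝ) - ∑ i, A6 i)
          = (6 / 6263 : ℝ) • ((6263 : ℝ) • (1 : Matrix (Fin 5) (Fin 5) ℝ) - ∑ i, toM (B i)) := by
        unfold A6
        rw [smul_sub, Finset.smul_sum, smul_smul]
        norm_num
      rw [h]
      exact posSemidef_slack.smul (by norm_num)
    · norm_num [Nat.factorial]
  | succ n hn ih =>
    obtain ⟨A, h1, h2, h3⟩ := ih
    refine ⟨Fin.cons 1 A, ?_, ?_, ?_⟩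
    · intro i
      refine Fin.cases ?_ (fun j => ?_) i
      · simpa using PosSemidef.one
      · simpa using h1 j
    · rw [Fin.sum_univ_succ]
      simp only [Fin.cons_zero, Fin.cons_succ]
      have h : ((n + 1 : ℕ) : ℝ) • (1 : Matrix (Fin 5) (Fin 5) ℝ) - (1 + ∑ i, A i)
          = (n : ℝ) • (1 : Matrix (Fin 5) (Fin 5) ℝ) - ∑ i, A i := by
        push_cast
        rw [add_smul, one_smul]
        abel
      rw [h]
      exact h2
    · rw [P_cons_one, h3, ← nsmul_eq_mul, Nat.factorial_succ, ← Nat.cast_smul_eq_nsmul ℝ, smul_smul]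
      push_cast
      ring_nf

theorem quad_form : (720 : ℝ) < (P 6 A6 *ᵥ ![1, 0, 0, 0, 0]) 0 := by
  have hA : A6 = fun i => (6 / 6263 : ℝ) • toM (B i) := rfl
  have hB : (fun i : Fin 6 => toM (B i)) = fun i : Fin 6 => toM (BL.getD i default) := by
    funext i
    fin_cases i <;> rfl
  have h1 : (![1, 0, 0, 0, 0] : Fin 5 → ℝ) = toV ⟨1, 0, 0, 0, 0⟩ := by
    funext i
    fin_cases i <;> simp [toV]
  rw [hA, P_smul, Matrix.smul_mulVec, h1, hB, ← toV_G 6 BL _ rfl]
  have h2 : toV (G 6 BL ⟨1, 0, 0, 0, 0⟩) 0 = ((G 6 BL ⟨1, 0, 0, 0, 0⟩).a : ℝ) := rfl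
  rw [Pi.smul_apply, h2, G_eval]
  norm_num

/-- **The upper half of the noncommutative Maclaurin-type inequality is false.**
For every `n ≥ 6` there are `n` real symmetric positive semidefinite `5 × 5` matrices with
`A_1 + ... + A_n ⪯ n I` such that `S_n(A_1, ..., A_n)` has an eigenvalue strictly larger than
`n! / (n - n)! = n!`. -/
theorem result (n : ℕ) (hn : 6 ≤ n) :
    ∃ A : Fin n → Matrix (Fin 5) (Fin 5) ℝ,
      (∀ i, (A i).PosSemidef) ∧
      ((n : ℝ) • (1 : Matrix (Fin 5) (Fin 5) ℝ) - ∑ i, A i).PosSemidef ∧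
      ∃ μ : ℝ, (n.factorial : ℝ) / ((n - n).factorial : ℝ) < μ ∧
        ∃ v : Fin 5 → ℝ, v ≠ 0 ∧ S n A *ᵥ v = μ • v := by
  obtain ⟨A, h1, h2, h3⟩ := exists_family n hn
  refine ⟨A, h1, h2, ?_⟩
  rw [S_eq_P]
  set c : ℝ := (n.factorial : ℝ) with hc
  have hcpos : 0 < c := by rw [hc]; exact_mod_cast n.factorial_pos
  have hsymm : (P n A)ᵀ = P n A := P_transpose A fun i => by
    have := (h1 i).isHermitian
    rwa [Matrix.IsHermitian, Matrix.conjTranspose_eq_transpose_of_trivial] at this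
  set K : Matrix (Fin 5) (Fin 5) ℝ := c • 1 - P n A with hK
  have hKh : K.IsHermitian := by
    rw [Matrix.IsHermitian, Matrix.conjTranspose_eq_transpose_of_trivial, hK]
    simp [hsymm]
  have hnot : ¬ K.PosSemidef := by
    intro h
    have h4 := h.dotProduct_mulVec_nonneg ![1, 0, 0, 0, 0]
    have h5 : star (![1, 0, 0, 0, 0] : Fin 5 → ℝ) ⬝ᵥ (K *ᵥ ![1, 0, 0, 0, 0])
        = c - (c / 720) * (P 6 A6 *ᵥ ![1, 0, 0, 0, 0]) 0 := by
      rw [hK, h3, Matrix.sub_mulVec, Matrix.smul_mulVec, Matrix.smul_mulVec]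
      simp [dotProduct, Fin.sum_univ_succ]
    rw [h5] at h4
    have h6 := quad_form
    have h7 : c < (c / 720) * (P 6 A6 *ᵥ ![1, 0, 0, 0, 0]) 0 := by
      calc c = (c / 720) * 720 := by ring
        _ < _ := by
          apply mul_lt_mul_of_pos_left h6
          positivity
    linarith
  rw [hKh.posSemidef_iff_eigenvalues_nonneg] at hnot
  rw [Pi.le_def] at hnot
  push Not at hnot
  obtain ⟨i, hi⟩ := hnot
  refine ⟨c - hKh.eigenvalues i, ?_, hKh.eigenvectorBasis i, ?_, ?_⟩
  · simp only [Nat.sub_self, Nat.factorial_zero, Nat.cast_one, div_one]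
    have hi' : hKh.eigenvalues i < 0 := hi
    linarith
  · intro h
    have h8 := hKh.eigenvectorBasis.orthonormal.1 i
    have h9 : hKh.eigenvectorBasis i = 0 := by
      ext j
      exact congrFun h j
    rw [h9] at h8
    simp at h8
  · have h10 := hKh.mulVec_eigenvectorBasis i
    have h11 : ∀ w : Fin 5 → ℝ, K *ᵥ w = c • w - P n A *ᵥ w := by
      intro w
      rw [hK, Matrix.sub_mulVec, Matrix.smul_mulVec, Matrix.one_mulVec]
    rw [h11] at h10
    rw [sub_smul, ← h10]
    abel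

end Pool.Agent.Results.MP_6eb00f_an.UpperHalfFails
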